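import Mathlib

/-!
The curve `y ^ 2 + y = x ^ 3 + x` has only constant points over the field of rational functions
over the field with two elements.
-/

open Polynomial

namespace Pool.Agent.Lib.MP_a3366f_nt.Gap

/-- Polynomials modulo two. -/
abbrev R2 := (ZMod 2)[X]

theorem two_R2 : (2 : R2) = 0 := CharTwo.two_eq_zero

theorem ex_sq {p : R2} (h : derivative p = 0) : ∃ r, p = r ^ 2 :=
  ⟨contract 2 p, by rw [← ZMod.expand_card, expand_contract 2 h two_ne_zero]⟩

theorem der_zero {a b d : R2} (hc : IsCoprime a d) (hd : d ≠ 0)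
    (h : b ^ 2 + b * d ^ 3 = a ^ 3 + a * d ^ 4) :
    derivative a = 0 ∧ derivative b = 0 ∧ derivative d = 0 := by
  have h1 := congrArg derivative h
  simp only [derivative_add, derivative_mul, derivative_pow, Nat.cast_ofNat, map_ofNat,
    Nat.add_one_sub_one, pow_one] at h1
  have h2 : (derivative b * d + b * derivative d) * d ^ 2 = (a ^ 2 + d ^ 4) * derivative a := by
    linear_combination h1 + (a ^ 2 * derivative a + 2 * a * d ^ 3 * derivative d - b * derivative b -
      b * d ^ 2 * derivative d) * two_R2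
  obtain ⟨g, hg⟩ : d ^ 2 ∣ derivative a := by
    refine (hc.symm.pow (m := 2) (n := 2)).dvd_of_dvd_mul_left
      ⟨derivative b * d + b * derivative d - d ^ 2 * derivative a, ?_⟩
    linear_combination -h2
  have h3 : derivative b * d + b * derivative d = (a ^ 2 + d ^ 4) * g :=
    mul_right_cancel₀ (pow_ne_zero 2 hd) (by rw [h2, hg]; ring)
  have g0 : g = 0 := by
    by_contra g0
    have a1 : derivative a ≠ 0 := hg ▸ mul_ne_zero (pow_ne_zero 2 hd) g0
    have a2 : a.natDegree ≠ 0 := fun e => a1 (derivative_of_natDegree_zero e)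
    have a0 : a ≠ 0 := fun e => a2 (by rw [e, natDegree_zero])
    have a3 := natDegree_derivative_lt a2
    rw [hg, natDegree_mul (pow_ne_zero 2 hd) g0, natDegree_pow] at a3
    have a4 : (a ^ 2 + d ^ 4).natDegree = 2 * a.natDegree := by
      rw [natDegree_add_eq_left_of_natDegree_lt (by rw [natDegree_pow, natDegree_pow]; omega),
        natDegree_pow]
    have a5 : a ^ 2 + d ^ 4 ≠ 0 := fun e => by
      rw [e, natDegree_zero] at a4
      omega
    have a6 : (b * (b + d ^ 3)).natDegree = 3 * a.natDegree := by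
      rw [show b * (b + d ^ 3) = a * (a ^ 2 + d ^ 4) by linear_combination h, natDegree_mul a0 a5,
        a4]
      ring
    have a7 : 2 * b.natDegree ≤ 3 * a.natDegree := by
      rcases le_or_gt b.natDegree (3 * d.natDegree) with h4 | h4
      · omega
      · have b0 : b ≠ 0 := fun e => by simp [e] at h4
        have b1 : (b + d ^ 3).natDegree = b.natDegree :=
          natDegree_add_eq_left_of_natDegree_lt (by rwa [natDegree_pow])
        rw [natDegree_mul b0 (fun e => by rw [e, natDegree_zero] at b1; omega), b1] at a6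
        omega
    have a8 := natDegree_add_le (derivative b * d) (b * derivative d)
    have a9 := natDegree_mul_le (p := derivative b) (q := d)
    have a10 := natDegree_mul_le (p := b) (q := derivative d)
    have a11 := natDegree_derivative_le b
    have a12 := natDegree_derivative_le d
    rw [h3, natDegree_mul a5 g0, a4] at a8
    omega
  rw [g0, mul_zero] at hg h3
  have c1 : IsCoprime b d := by
    have := hc.pow_left (m := 3)
    rw [show a ^ 3 = b ^ 2 + d * (b * d ^ 2 - a * d ^ 3) by linear_combination -h,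
      IsCoprime.add_mul_left_left_iff] at this
    exact (IsCoprime.pow_left_iff two_pos).1 this
  have d1 : derivative d = 0 := by
    by_contra d1
    have h4 : d ∣ derivative d :=
      c1.symm.dvd_of_dvd_mul_left ⟨-derivative b, by linear_combination h3⟩
    have := natDegree_le_of_dvd h4 d1
    have := natDegree_derivative_lt fun e => d1 (derivative_of_natDegree_zero e)
    omega
  rw [d1, mul_zero, add_zero] at h3
  exact ⟨hg, (mul_eq_zero.1 h3).resolve_right hd, d1⟩

theorem descent (n : ℕ) : ∀ a b d : R2, a.natDegree + d.natDegree = n → IsCoprime a d → d ≠ 0 →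
    b ^ 2 + b * d ^ 3 = a ^ 3 + a * d ^ 4 → n = 0 := by
  induction n using Nat.strong_induction_on with
  | _ n ih =>
    intro a b d hn hc hd h
    obtain ⟨h1, h2, h3⟩ := der_zero hc hd h
    obtain ⟨a, rfl⟩ := ex_sq h1
    obtain ⟨b, rfl⟩ := ex_sq h2
    obtain ⟨d, rfl⟩ := ex_sq h3
    rw [natDegree_pow, natDegree_pow] at hn
    by_contra h0
    have h4 : (b ^ 2 + b * d ^ 3 - (a ^ 3 + a * d ^ 4)) ^ 2 = 0 := by
      rw [CharTwo.sub_eq_add, CharTwo.add_sq, CharTwo.add_sq, CharTwo.add_sq]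
      linear_combination h + (a ^ 6 + a ^ 2 * d ^ 8) * two_R2
    have := ih _ (by omega) a b d rfl ((IsCoprime.pow_iff two_pos two_pos).1 hc)
      (fun e => hd (by rw [e]; ring)) (sub_eq_zero.1 (pow_eq_zero_iff two_ne_zero |>.1 h4))
    omega

theorem const_R2 {a : R2} (h : a.natDegree = 0) : a = 0 ∨ a = 1 := by
  rw [eq_C_of_natDegree_eq_zero h]
  generalize a.coeff 0 = r
  fin_cases r
  · exact Or.inl C_0
  · exact Or.inr C_1

theorem ex_cop (a : R2) {c : R2} (hc : c ≠ 0) :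
    ∃ g a' c', g ≠ 0 ∧ c' ≠ 0 ∧ a = g * a' ∧ c = g * c' ∧ IsCoprime a' c' := by
  obtain ⟨a', c', h1, h2, h3⟩ := extract_gcd a c
  exact ⟨_, a', c', left_ne_zero_of_mul (h2 ▸ hc), right_ne_zero_of_mul (h2 ▸ hc), h1, h2,
    (gcd_isUnit_iff _ _).1 h3⟩

theorem no_point {a c b e : R2} (hc : c ≠ 0) (he : e ≠ 0)
    (h : b * (b + e) * c ^ 3 = a * (a + c) ^ 2 * e ^ 2) : a = 0 ∨ a = c := by
  obtain ⟨g, a, c, g0, c0, rfl, rfl, h1⟩ := ex_cop a hc
  obtain ⟨k, b, e, k0, e0, rfl, rfl, h2⟩ := ex_cop b he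
  have h3 : b * (b + e) * c ^ 3 = a * (a + c) ^ 2 * e ^ 2 :=
    mul_left_cancel₀ (mul_ne_zero (pow_ne_zero 3 g0) (pow_ne_zero 2 k0)) (by linear_combination h)
  have h4 : c ^ 3 ∣ e ^ 2 := by
    refine IsCoprime.dvd_of_dvd_mul_left (y := a * (a + c) ^ 2) (IsCoprime.pow_left ?_)
      ⟨b * (b + e), by linear_combination -h3⟩
    refine h1.symm.mul_right (IsCoprime.pow_right ?_)
    simpa using h1.symm.add_mul_left_right 1
  have h5 : e ^ 2 ∣ c ^ 3 := by
    refine IsCoprime.dvd_of_dvd_mul_left (y := b * (b + e)) (IsCoprime.pow_left ?_)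
      ⟨a * (a + c) ^ 2, by linear_combination h3⟩
    refine h2.symm.mul_right ?_
    simpa using h2.symm.add_mul_left_right 1
  obtain ⟨d, rfl⟩ : c ∣ e := (IsIntegrallyClosed.pow_dvd_pow_iff two_ne_zero).1
    ((pow_dvd_pow c (by norm_num)).trans h4)
  rw [mul_pow, pow_succ c 2, mul_dvd_mul_iff_left (pow_ne_zero 2 c0)] at h4 h5
  obtain ⟨u, hu⟩ := associated_of_dvd_dvd h4 h5
  have h6 : (u : R2) = 1 :=
    (const_R2 (natDegree_eq_zero_of_isUnit u.isUnit)).resolve_left u.ne_zero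
  rw [h6, mul_one] at hu
  subst hu
  have d0 : d ≠ 0 := right_ne_zero_of_mul e0
  have h7 : b ^ 2 + b * d ^ 3 = a ^ 3 + a * d ^ 4 :=
    mul_right_cancel₀ (pow_ne_zero 6 d0) (by linear_combination h3 + a ^ 2 * d ^ 8 * two_R2)
  have h8 := descent _ a b d rfl ((IsCoprime.pow_right_iff two_pos).1 h1) d0 h7
  rw [(const_R2 (show d.natDegree = 0 by omega)).resolve_left d0]
  rcases const_R2 (show a.natDegree = 0 by omega) with rfl | rfl
  · exact Or.inl (mul_zero _)
  · exact Or.inr (by ring)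

/-- The two quartic relations between four parts. -/
def Qr {R : Type} [CommRing R] (e a b c d : R) : Prop :=
  (b + d) ^ 2 * (a * b + c * d) = (a + c) ^ 2 * (a * d + b * c) ∧
    a * c * (a + c) ^ 2 + b * d * (b + d) ^ 2 = e * ((a + c) ^ 2 * (b + d) ^ 2)

theorem Qr.map {R S : Type} [CommRing R] [CommRing S] {f : R →+* S} (hf : Function.Injective f)
    {e a b c d : R} : Qr (f e) (f a) (f b) (f c) (f d) ↔ Qr e a b c d := by
  simp only [Qr, ← map_add, ← map_mul, ← map_pow, hf.eq_iff]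

theorem Qr.mul {R : Type} [CommRing R] [IsDomain R] {w : R} (hw : w ≠ 0) {e a b c d : R} :
    Qr e (a * w) (b * w) (c * w) (d * w) ↔ Qr e a b c d := by
  refine and_congr ?_ ?_ <;>
    exact ⟨fun h => mul_right_cancel₀ (pow_ne_zero 4 hw) (by linear_combination h),
      fun h => by linear_combination w ^ 4 * h⟩

theorem Qr.poly {e a b c d : R2} (he : e * e = e) (h : Qr e a b c d) : a + c = 0 ∨ b + d = 0 := by
  by_contra h0
  obtain ⟨U0, V0⟩ := not_or.1 h0
  obtain ⟨h1, h2⟩ := h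
  obtain ⟨U, rfl⟩ : ∃ U, c = U + a := ⟨a + c, by linear_combination -a * two_R2⟩
  obtain ⟨V, rfl⟩ : ∃ V, d = V + b := ⟨b + d, by linear_combination -b * two_R2⟩
  have eU : a + (U + a) = U := by linear_combination a * two_R2
  have eV : b + (V + b) = V := by linear_combination b * two_R2
  rw [eU] at U0 h1 h2
  rw [eV] at V0 h1 h2
  obtain ⟨s, hs⟩ : ∃ s, s = U + V := ⟨_, rfl⟩
  have s2 : s ^ 2 = U ^ 2 + V ^ 2 := by rw [hs, CharTwo.add_sq]
  have s4 : s ^ 4 = U ^ 4 + V ^ 4 := by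
    rw [show s ^ 4 = (s ^ 2) ^ 2 by ring, s2, CharTwo.add_sq]
    ring
  generalize hp : a * b + (U + a) * (V + b) = p at h1
  generalize hq : a * (V + b) + b * (U + a) = q at h1
  have k0 : p + q = U * V := by linear_combination -hp - hq + (2 * a * b + a * V + b * U) * two_R2
  have k1 : p * q = b * (V + b) * U ^ 2 + a * (U + a) * V ^ 2 := by
    rw [← hp, ← hq]
    linear_combination (2 * a ^ 2 * b ^ 2 + 2 * a ^ 2 * b * V + 2 * a * b ^ 2 * U +
      2 * a * b * U * V) * two_R2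
  generalize hA : a * (U + a) = A at h2 k1
  generalize b * (V + b) = B at h2 k1
  have k2 : p * s ^ 2 = U ^ 3 * V := by linear_combination p * s2 + h1 + U ^ 2 * k0
  have k3 : q * s ^ 2 = U * V ^ 3 := by linear_combination q * s2 - h1 + V ^ 2 * k0
  have k4 : (B * U ^ 2 + A * V ^ 2) * s ^ 4 = U ^ 4 * V ^ 4 := by
    linear_combination q * s ^ 2 * k2 + U ^ 3 * V * k3 - s ^ 4 * k1
  have k5 : A * s ^ 8 = U ^ 4 * V ^ 6 + e * U ^ 4 * V ^ 2 * s ^ 4 := by
    linear_combination A * s ^ 4 * s4 + V ^ 2 * k4 + U ^ 2 * s ^ 4 * h2 -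
      B * U ^ 2 * V ^ 2 * s ^ 4 * two_R2
  have s0 : s ≠ 0 := fun e0 => by
    rw [e0] at k2
    exact mul_ne_zero (pow_ne_zero 3 U0) V0 (by linear_combination -k2)
  have v2 : V ^ 2 = U ^ 2 + s ^ 2 := by linear_combination -s2 - U ^ 2 * two_R2
  have v4 : V ^ 4 = U ^ 4 + s ^ 4 := by linear_combination -s4 - U ^ 4 * two_R2
  have sq : (a * s ^ 4 + (U ^ 5 + (U ^ 4 * s + (e * U ^ 3 * s ^ 2 + U ^ 2 * s ^ 3)))) ^ 2 =
      a ^ 2 * s ^ 8 + (U ^ 10 + (U ^ 8 * s ^ 2 + (e * U ^ 6 * s ^ 4 + U ^ 4 * s ^ 6))) := by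
    simp only [CharTwo.add_sq]
    linear_combination U ^ 6 * s ^ 4 * he
  have k6 : A * s ^ 8 = U ^ 4 * ((U ^ 2 + s ^ 2) * (U ^ 4 + s ^ 4)) +
      e * U ^ 4 * (U ^ 2 + s ^ 2) * s ^ 4 := by
    rw [← v2, ← v4, k5]
    ring
  rcases no_point (a := U) (c := s) (e := U * s ^ 4)
    (b := a * s ^ 4 + (U ^ 5 + (U ^ 4 * s + (e * U ^ 3 * s ^ 2 + U ^ 2 * s ^ 3)))) s0
    (mul_ne_zero U0 (pow_ne_zero 4 s0)) (by
      rw [CharTwo.add_sq U s]
      linear_combination s ^ 3 * sq + s ^ 3 * k6 + s ^ 11 * hA + s ^ 3 * (U ^ 10 + U ^ 8 * s ^ 2 +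
        e * U ^ 6 * s ^ 4 + U ^ 4 * s ^ 6 + U ^ 6 * s ^ 4 + e * U ^ 4 * s ^ 6) * two_R2) with h | h
  · exact U0 h
  · exact V0 (by linear_combination -hs - h)

end Pool.Agent.Lib.MP_a3366f_nt.Gap
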