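import Mathlib
import Pool.Agent.Lib.MP_a3366f_nt.Av.Fat
import Pool.Agent.Lib.MP_a3366f_nt.Gap.Curve

/-!
The parts of `1 / f₁ ^ t` along the classes of the exponent modulo four satisfy two quartic
relations, so the coefficients satisfy no short linear recurrence on a long interval.
-/

open Finset

namespace Pool.Agent.Lib.MP_a3366f_nt.Gap

open Ker Zt Av

theorem G_split' {ι κ : Type} {Q : ι → ℤ} (h : Ok Q) {e f : κ → ι} (he : Function.Injective e)
    (hf : Function.Injective f) (h1 : ∀ i, (∃ x, e x = i) ∨ ∃ x, f x = i)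
    (h2 : ∀ x y, e x ≠ f y) : G Q = G (fun i => Q (e i)) + G fun i => Q (f i) := by
  ext n
  rw [HahnSeries.coeff_add, coeff_G, coeff_G, coeff_G]
  split_ifs with h0
  · have h3 : (Function.support fun i => if Q i = n then (1 : ZMod 2) else 0).Finite :=
      (h.2 n).subset fun i hi => by_contra fun h3 => hi (if_neg h3)
    rw [← finsum_mem_range (f := fun i => if Q i = n then (1 : ZMod 2) else 0) he,
      ← finsum_mem_range (f := fun i => if Q i = n then (1 : ZMod 2) else 0) hf,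
      ← finsum_mem_union' _ (h3.inter_of_right _) (h3.inter_of_right _), ← finsum_mem_univ]
    · congr! 3 with i
      exact ⟨fun _ => h1 i, fun _ => trivial⟩
    · rw [Set.disjoint_left]
      rintro _ ⟨x, rfl⟩ ⟨y, hy⟩
      exact h2 x y hy.symm
  · rw [add_zero]

theorem ok_add {ι κ : Type} {Q : ι → ℤ} {Q' : κ → ℤ} (h : Ok Q) (h' : Ok Q') :
    Ok fun p : ι × κ => Q p.1 + Q' p.2 := by
  refine ⟨fun p => add_nonneg (h.1 _) (h'.1 _), fun n => ?_⟩
  refine (((Set.finite_Icc 0 n).biUnion fun m _ => h.2 m).prod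
    ((Set.finite_Icc 0 n).biUnion fun m _ => h'.2 m)).subset fun p (hp : Q p.1 + Q' p.2 = n) => ?_
  have h1 := h.1 p.1
  have h2 := h'.1 p.2
  exact ⟨Set.mem_biUnion (x := Q p.1) ⟨h1, by omega⟩ rfl,
    Set.mem_biUnion (x := Q' p.2) ⟨h2, by omega⟩ rfl⟩

theorem th_cross (a b : ℤ) : (th 1 8 a * th 1 8 b) ^ 2 =
    th 1 16 (a + b) * th 1 16 (a - b) + th 1 16 (a + b + 8) * th 1 16 (a - b + 8) := by
  have o2 : ∀ x : ℤ, Ok fun i : ℤ => 2 * 1 * (x + 8 * i) ^ 2 := fun x =>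
    ok_th (by norm_num) (by norm_num) x
  have o1 : ∀ x : ℤ, Ok fun i : ℤ => 1 * (x + 16 * i) ^ 2 := fun x =>
    ok_th (by norm_num) (by norm_num) x
  rw [mul_pow, th_sq, th_sq]
  simp only [th]
  rw [G_mul (o2 _) (o2 _), G_mul (o1 _) (o1 _), G_mul (o1 _) (o1 _),
    G_split' (ok_add (o2 a) (o2 b)) (e := fun p : ℤ × ℤ => (p.1 + p.2, p.1 - p.2))
      (f := fun p : ℤ × ℤ => (p.1 + p.2 + 1, p.1 - p.2))]
  · congr 2 <;> funext p <;> ring
  · intro p q h
    obtain ⟨h1, h2⟩ := Prod.ext_iff.1 h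
    dsimp only at h1 h2
    ext <;> omega
  · intro p q h
    obtain ⟨h1, h2⟩ := Prod.ext_iff.1 h
    dsimp only at h1 h2
    ext <;> omega
  · rintro ⟨i, j⟩
    rcases Int.even_or_odd' (i + j) with ⟨m, h | h⟩
    · exact Or.inl ⟨(m, i - m), by ext <;> dsimp only <;> omega⟩
    · exact Or.inr ⟨(m, i - m - 1), by ext <;> dsimp only <;> omega⟩
  · intro p q h
    obtain ⟨h1, h2⟩ := Prod.ext_iff.1 h
    dsimp only at h1 h2
    omega

theorem two_L2 : (2 : L2) = 0 :=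
  haveI := charL2
  CharTwo.two_eq_zero

/-- The identities between the four theta series of the second level. -/
structure Four (a b c d u v s w : L2) : Prop where
  hu : a + c = u
  hv : b + d = v
  hs : u + v = s
  h1 : u * v = s ^ 10
  h2 : a * c = (v * s ^ 16) ^ 2
  h3 : b * d = (u * s ^ 16) ^ 2
  h4 : a * b + c * d = (w * u) ^ 2
  h5 : a * d + b * c = (w * v) ^ 2

theorem four : Four (Th 1 2 1) (Th 1 2 3) (Th 1 2 9) (Th 1 2 11) (Th 1 1 1) (Th 1 1 3) (Dl 1)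
    (th 1 8 2) := by
  have hc : 1 = 1 ∨ 1 = 3 := Or.inl rfl
  have e1 : ∀ b, Th 1 1 b = th 1 8 b := fun b => by simp [Th]
  have e2 : ∀ b, Th 1 2 b = th 1 16 b := fun b => by simp [Th]
  have e3 : ∀ b, th 1 8 (8 - b) = th 1 8 b := fun b => by
    rw [← th_neg 1 8 b, ← th_shift 1 8 (-b), neg_add_eq_sub]
  have e5 : Th 1 1 5 = Th 1 1 3 := by rw [e1, e1]; exact e3 3
  have e7 : Th 1 1 7 = Th 1 1 1 := by rw [e1, e1]; exact e3 1
  refine ⟨Th_add hc 1 1, Th_add hc 1 3, ?_, ?_, ?_, ?_, ?_, ?_⟩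
  · rw [← e5, ← Th_zero hc odd_one]
    exact Th_add hc 0 1
  · have h := Th_mul hc 0 1
    rw [Th_zero hc (by decide)] at h
    rw [← e5]
    exact h.trans (by ring)
  · rw [← e5]
    exact Th_mul hc 1 1
  · rw [← e7]
    exact Th_mul hc 1 3
  · have h := th_cross 2 1
    norm_num at h
    simp only [e1, e2]
    linear_combination -h
  · have h := th_cross 6 5
    norm_num at h
    rw [show th 1 16 19 = th 1 16 3 from th_shift 1 16 3, show th 1 8 6 = th 1 8 2 from e3 2,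
      show th 1 8 5 = th 1 8 3 from e3 3] at h
    simp only [e1, e2]
    linear_combination -h

theorem Four.one {a b c d u v s w : L2} (h : Four a b c d u v s w) : Qr 0 a b c d := by
  rw [Qr, h.hu, h.hv, h.h2, h.h3, h.h4, h.h5]
  exact ⟨by ring, by linear_combination u ^ 2 * v ^ 2 * s ^ 32 * two_L2⟩

theorem Four.three {a b c d u v s w : L2} (h : Four a b c d u v s w) :
    Qr 1 (a * u ^ 2 + c * v ^ 2) (b * u ^ 2 + d * v ^ 2) (c * u ^ 2 + a * v ^ 2)
      (d * u ^ 2 + b * v ^ 2) := by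
  have := charL2
  obtain ⟨hu, hv, hs, h1, h2, h3, h4, h5⟩ := h
  have s2 : u ^ 2 + v ^ 2 = s ^ 2 := by rw [← hs, CharTwo.add_sq]
  have s4 : u ^ 4 + v ^ 4 = s ^ 4 := by
    rw [show s ^ 4 = (s ^ 2) ^ 2 by ring, ← s2, CharTwo.add_sq]
    ring
  have u2 : a ^ 2 + c ^ 2 = u ^ 2 := by rw [← hu, CharTwo.add_sq]
  have v2 : b ^ 2 + d ^ 2 = v ^ 2 := by rw [← hv, CharTwo.add_sq]
  have k1 : a * u ^ 2 + c * v ^ 2 + (c * u ^ 2 + a * v ^ 2) = u * s ^ 2 := by
    linear_combination (u ^ 2 + v ^ 2) * hu + u * s2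
  have k2 : b * u ^ 2 + d * v ^ 2 + (d * u ^ 2 + b * v ^ 2) = v * s ^ 2 := by
    linear_combination (u ^ 2 + v ^ 2) * hv + v * s2
  have k3 : (a * u ^ 2 + c * v ^ 2) * (b * u ^ 2 + d * v ^ 2) +
      (c * u ^ 2 + a * v ^ 2) * (d * u ^ 2 + b * v ^ 2) = (w * u) ^ 2 * s ^ 4 := by
    linear_combination (u ^ 4 + v ^ 4) * h4 + (w * u) ^ 2 * s4 +
      (a * d + b * c) * u ^ 2 * v ^ 2 * two_L2
  have k4 : (a * u ^ 2 + c * v ^ 2) * (d * u ^ 2 + b * v ^ 2) +
      (b * u ^ 2 + d * v ^ 2) * (c * u ^ 2 + a * v ^ 2) = (w * v) ^ 2 * s ^ 4 := by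
    linear_combination (u ^ 4 + v ^ 4) * h5 + (w * v) ^ 2 * s4 +
      (a * b + c * d) * u ^ 2 * v ^ 2 * two_L2
  have k5 : (a * u ^ 2 + c * v ^ 2) * (c * u ^ 2 + a * v ^ 2) =
      (v * s ^ 16) ^ 2 * s ^ 4 + u ^ 4 * v ^ 2 := by
    linear_combination (u ^ 4 + v ^ 4) * h2 + (v * s ^ 16) ^ 2 * s4 + u ^ 2 * v ^ 2 * u2
  have k6 : (b * u ^ 2 + d * v ^ 2) * (d * u ^ 2 + b * v ^ 2) =
      (u * s ^ 16) ^ 2 * s ^ 4 + u ^ 2 * v ^ 4 := by
    linear_combination (u ^ 4 + v ^ 4) * h3 + (u * s ^ 16) ^ 2 * s4 + u ^ 2 * v ^ 2 * v2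
  rw [Qr, k1, k2, k3, k4, k5, k6]
  exact ⟨by ring, by
    linear_combination u ^ 2 * v ^ 2 * s ^ 4 * s4 + u ^ 2 * v ^ 2 * s ^ 40 * two_L2⟩

theorem cmp_Dl4 : cmp 5 1 (Dl 1) = Th 1 2 1 ∧ cmp 5 9 (Dl 1) = Th 1 2 3 ∧
    cmp 5 17 (Dl 1) = Th 1 2 9 ∧ cmp 5 25 (Dl 1) = Th 1 2 11 := by
  rw [← four.hs, ← four.hu, ← four.hv]
  simp only [map_add]
  have c1 := cls_Th 1 2 1
  have c2 := cls_Th 1 2 3
  have c3 := cls_Th 1 2 9
  have c4 := cls_Th 1 2 11
  refine ⟨?_, ?_, ?_, ?_⟩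
  · rw [c1.cmp_eq (by decide), c2.cmp_ne (by decide), c3.cmp_ne (by decide), c4.cmp_ne (by decide)]
    ring
  · rw [c1.cmp_ne (by decide), c2.cmp_eq (by decide), c3.cmp_ne (by decide), c4.cmp_ne (by decide)]
    ring
  · rw [c1.cmp_ne (by decide), c2.cmp_ne (by decide), c3.cmp_eq (by decide), c4.cmp_ne (by decide)]
    ring
  · rw [c1.cmp_ne (by decide), c2.cmp_ne (by decide), c3.cmp_ne (by decide), c4.cmp_eq (by decide)]
    ring

theorem cmp_cube (r : ℤ) : cmp 5 (r + 2) (Dl 1 ^ 3) =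
    cmp 5 r (Dl 1) * Th 1 1 1 ^ 2 + cmp 5 (r + 16) (Dl 1) * Th 1 1 3 ^ 2 := by
  have := charL2
  rw [← cmp_mul ((cls_Th 1 1 1).sq.congr (b := 2) (by decide)),
    ← cmp_mul ((cls_Th 1 1 3).sq.congr (b := -14) (by decide)), show r + 16 + -14 = r + 2 by ring,
    ← map_add, ← mul_add, ← CharTwo.add_sq, four.hs, pow_succ']

/-- The relations for the parts of a power series. -/
def QS (e f : S2) : Prop := Qr e (pc 2 0 f) (pc 2 1 f) (pc 2 2 f) (pc 2 3 f)

theorem cmp_pc (b m : ℕ) (h : b + m = 4) (j : ℤ) : cmp 5 (8 * j + m) (Dl 1 ^ m) =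
    io (pc 2 j ((P1 ^ 3) ^ b)) * (HahnSeries.single (-(b : ℤ)) 1 * Dl 1 ^ 4) := by
  have hc : 1 = 1 ∨ 1 = 3 := Or.inl rfl
  have c0 : Cls 3 1 (Dl 1) := Th_zero hc odd_one ▸ (cls_Th 1 0 1).congr (by decide)
  have c1 : Cls 5 4 (Dl 1 ^ 4) := by
    have := c0.sq.sq
    rwa [← pow_mul] at this
  rw [← mul_assoc, mul_comm (io _), ← cmp_sg 2 b j, ← cmp_mul c1, ← h, pow_add, ← mul_assoc,
    ← mul_pow, sg_mul hc, one_pow, one_mul]
  congr 2
  omega

theorem QS_base (b : ℕ) (e : S2) (m : ℕ) (h : b + m = 4)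
    (hQ : Qr (io e) (cmp 5 (8 * 0 + m) (Dl 1 ^ m)) (cmp 5 (8 * 1 + m) (Dl 1 ^ m))
      (cmp 5 (8 * 2 + m) (Dl 1 ^ m)) (cmp 5 (8 * 3 + m) (Dl 1 ^ m))) : QS e ((P1 ^ 3) ^ b) := by
  simp only [cmp_pc b m h] at hQ
  exact (Qr.map io_inj).1 ((Qr.mul (mul_ne_zero (HahnSeries.single_ne_zero one_ne_zero)
    (pow_ne_zero _ (Dl_ne (Or.inl rfl))))).1 hQ)

theorem QS_nine : QS 0 ((P1 ^ 3) ^ 3) := by
  refine QS_base 3 0 1 rfl ?_
  obtain ⟨h1, h2, h3, h4⟩ := cmp_Dl4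
  norm_num
  rw [h1, h2, h3, h4]
  exact four.one

theorem QS_three : QS 1 ((P1 ^ 3) ^ 1) := by
  refine QS_base 1 1 3 rfl ?_
  obtain ⟨h1, h2, h3, h4⟩ := cmp_Dl4
  have k1 := cmp_cube 1
  have k2 := cmp_cube 9
  have k3 := cmp_cube 17
  have k4 := cmp_cube 25
  rw [cmp_congr (a := 17 + 16) (b := 1) (by decide)] at k3
  rw [cmp_congr (a := 25 + 16) (b := 9) (by decide)] at k4
  norm_num at k1 k2 k3 k4 ⊢
  rw [k1, k2, k3, k4, h1, h2, h3, h4]
  exact four.three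

theorem pc_mul_four (j : ℤ) (f g : S2) : pc 2 j (f * g ^ 4) = pc 2 j f * g ^ 4 := by
  have c0 : Cls 3 0 (io g) := fun n hn => by
    rw [coeff_io] at hn
    split_ifs at hn with h
    · exact Int.modEq_zero_iff_dvd.2 h.2
    · exact absurd rfl hn
  have c1 : Cls 5 0 (io g ^ 4) := by
    have := c0.sq.sq
    rwa [← pow_mul] at this
  refine io_inj ?_
  rw [map_mul, ← cmp_io, ← cmp_io, map_mul, map_pow, ← cmp_mul c1, add_zero]

theorem QS_mul {e f g : S2} (hg : g ≠ 0) : QS e (f * g ^ 4) ↔ QS e f := by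
  simp only [QS, pc_mul_four]
  exact Qr.mul (pow_ne_zero 4 hg)

theorem QS_odd {t : ℕ} (ht : Odd t) : ∃ e : R2, e * e = e ∧ QS e (P1 ^ t) := by
  have h0 : P1 ≠ 0 := left_ne_zero_of_mul_eq_one P1_mul_pent
  obtain ⟨m, rfl⟩ := ht
  rcases Nat.even_or_odd' m with ⟨k, rfl | rfl⟩
  · refine ⟨0, by simp, (QS_mul (pow_ne_zero 2 h0)).1 ?_⟩
    rw [show P1 ^ (2 * (2 * k) + 1) * (P1 ^ 2) ^ 4 = (P1 ^ 3) ^ 3 * (P1 ^ k) ^ 4 by ring,
      QS_mul (pow_ne_zero k h0), Polynomial.coe_zero]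
    exact QS_nine
  · refine ⟨1, by simp, ?_⟩
    rw [show P1 ^ (2 * (2 * k + 1) + 1) = (P1 ^ 3) ^ 1 * (P1 ^ k) ^ 4 by ring,
      QS_mul (pow_ne_zero k h0), Polynomial.coe_one]
    exact QS_three

theorem poly_eq {p q : R2} {N : ℕ} (hp : p.natDegree < N) (hq : q.natDegree < N)
    (h : Ideal.Quotient.mk (Ideal.span {(PowerSeries.X : S2) ^ N}) p =
      Ideal.Quotient.mk (Ideal.span {(PowerSeries.X : S2) ^ N}) q) : p = q := by
  rw [Ideal.Quotient.eq, Ideal.mem_span_singleton] at h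
  ext n
  rcases lt_or_ge n N with h1 | h1
  · simpa using coeff_congr h h1
  · rw [Polynomial.coeff_eq_zero_of_natDegree_lt (by omega),
      Polynomial.coeff_eq_zero_of_natDegree_lt (by omega)]

/-- A series whose parts satisfy the relations has no gap of ratio four. -/
theorem gap {e : R2} (he : e * e = e) {H : S2} (h : QS e H) {d : ℕ} (hd : 1 ≤ d)
    (h0 : H.coeff 0 = 1) (h1 : H.coeff 1 = 1) : ∃ n, d < n ∧ n ≤ 4 * d ∧ H.coeff n ≠ 0 := by
  by_contra! hz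
  have e0 : e.natDegree = 0 := by
    rcases eq_or_ne e 0 with rfl | e0
    · rfl
    · have := Polynomial.natDegree_mul e0 e0
      rw [he] at this
      omega
  set π := Ideal.Quotient.mk (Ideal.span {(PowerSeries.X : S2) ^ (4 * d + 1)}) with hπ
  set y : ℤ → R2 := fun j => PowerSeries.trunc (d + 1) (pc 2 j H) with hy
  have k1 : ∀ j, (y j).natDegree ≤ d := fun j =>
    Nat.lt_succ_iff.1 (PowerSeries.natDegree_trunc_lt _ d)
  have k2 : ∀ j, π (y j) = π (pc 2 j H) := fun j => by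
    rw [hπ, Ideal.Quotient.eq, Ideal.mem_span_singleton, PowerSeries.X_pow_dvd_iff]
    intro n hn
    rw [map_sub, Polynomial.coeff_coe, hy, PowerSeries.coeff_trunc]
    split_ifs with h2
    · exact sub_self _
    · rw [pc, PowerSeries.coeff_mk, hz n (by omega) (by omega), ite_self, sub_self]
  have k3 : Qr e (y 0) (y 1) (y 2) (y 3) := by
    have a0 := k1 0
    have a1 := k1 1
    have a2 := k1 2
    have a3 := k1 3
    have a4 := e0.le
    constructor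
    · refine poly_eq (N := 4 * d + 1) (Nat.lt_succ_of_le (by compute_degree!; omega))
        (Nat.lt_succ_of_le (by compute_degree!; omega)) ?_
      have := congrArg π h.1
      push_cast
      simpa only [map_mul, map_add, map_pow, ← hπ, k2] using this
    · refine poly_eq (N := 4 * d + 1) (Nat.lt_succ_of_le (by compute_degree!; omega))
        (Nat.lt_succ_of_le (by compute_degree!; omega)) ?_
      have := congrArg π h.2
      push_cast
      simpa only [map_mul, map_add, map_pow, ← hπ, k2] using this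
  have k4 : ∀ (j : ℤ) n, n ≤ d → (y j).coeff n = if (n : ℤ) ≡ j [ZMOD 2 ^ 2] then H.coeff n else 0 :=
    fun j n hn => by rw [hy, PowerSeries.coeff_trunc, if_pos (by omega), pc, PowerSeries.coeff_mk]
  rcases k3.poly he with k | k
  · have := congrArg (Polynomial.coeff · 0) k
    simp only [Polynomial.coeff_add, k4 _ 0 (by omega), h0] at this
    exact absurd this (by decide)
  · have := congrArg (Polynomial.coeff · 1) k
    simp only [Polynomial.coeff_add, k4 _ 1 hd, h1] at this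
    exact absurd this (by decide)

theorem recur {t : ℕ} (ht : Odd t) {x : ℕ} (hx : 1 ≤ x) {a : ℕ} {I : Finset ℕ} (hI : I.Nonempty)
    (ha : ∀ i ∈ I, i ≤ a) : ∃ n, x < n ∧ n ≤ 4 * x + 15 * a ∧ (∑ i ∈ I, pt t (n + i)) % 2 = 1 := by
  obtain ⟨e, he, hQ⟩ := QS_odd ht
  obtain ⟨b, hb, hm⟩ := exists_max_image I id hI
  have hm' : ∀ i ∈ I, i ≤ b := hm
  set A : R2 := ∑ i ∈ I, Polynomial.X ^ (b - i) with hA
  have a1 : A.natDegree ≤ b := Polynomial.natDegree_sum_le_of_forall_le _ _ fun i _ => by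
    rw [Polynomial.natDegree_X_pow]
    omega
  have a2 : (A : S2) = ∑ i ∈ I, PowerSeries.X ^ (b - i) := by
    rw [hA, ← Polynomial.coeToPowerSeries.ringHom_apply, map_sum]
    simp
  have a3 : PowerSeries.constantCoeff (A : S2) = 1 := by
    rw [a2, map_sum, sum_eq_single_of_mem b hb fun i hi h => ?_]
    · simp
    · have := hm' i hi
      rw [map_pow, PowerSeries.constantCoeff_X, zero_pow (by omega)]
  have a4 : (A : S2) ≠ 0 := fun h => by simp [h] at a3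
  have c0 : PowerSeries.constantCoeff P1 = 1 := by simp [P1]
  have c1 : PowerSeries.coeff 1 P1 = 1 := by simp [P1]
  obtain ⟨n, n1, n2, n3⟩ := gap he ((QS_mul a4).2 hQ) (d := x + 4 * b) (by omega)
    (by simp [a3, c0]) (by
      rw [PowerSeries.coeff_one_mul, PowerSeries.coeff_one_pow, PowerSeries.coeff_one_pow, map_pow,
        map_pow, a3, c0, c1, (ZMod.natCast_eq_one_iff_odd).2 ht, show ((4 : ℕ) : ZMod 2) = 0 from rfl]
      simp)
  rw [show P1 ^ t * (A : S2) ^ 4 = P1 ^ t * A * ((A ^ 3 : R2) : S2) by push_cast; ring,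
    PowerSeries.coeff_mul] at n3
  obtain ⟨⟨k, l⟩, h1, h2⟩ := exists_ne_zero_of_sum_ne_zero n3
  have h3 : k + l = n := mem_antidiagonal.1 h1
  have h4 : l ≤ 3 * b := by
    have h5 := right_ne_zero_of_mul h2
    rw [Polynomial.coeff_coe] at h5
    exact (Polynomial.le_natDegree_of_ne_zero h5).trans
      (Polynomial.natDegree_pow_le_of_le 3 a1)
  have h5 := left_ne_zero_of_mul h2
  have h6 := ha b hb
  refine ⟨k - b, by omega, by omega, ?_⟩
  rw [a2, mul_sum, map_sum, sum_congr rfl (g := fun i => (pt t (k - b + i) : ZMod 2))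
    fun i hi => ?_, ← Nat.cast_sum, Ne, ZMod.natCast_eq_zero_iff_even, Nat.not_even_iff] at h5
  · exact h5
  · have := hm' i hi
    rw [← coeff_P1_pow, ← PowerSeries.coeff_mul_X_pow _ (b - i) (k - b + i)]
    congr 2
    omega

end Pool.Agent.Lib.MP_a3366f_nt.Gap
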